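import Pool.Agent.P9.Fib.Pattern

/-!
# Coding measurable sets by real numbers
-/

namespace Pool.Agent.P9.Fib

open MeasureTheory Set Filter Topology symmDiff
open scoped ENNReal

theorem exists_decode_seq (ν : Measure ℝ) [IsFiniteMeasure ν] :
    ∃ S : Set ((ℕ → ℕ) × ℝ), MeasurableSet S ∧
      ∀ E : Set ℝ, MeasurableSet E → ∃ κ : ℕ → ℕ, Prod.mk κ ⁻¹' S =ᵐ[ν] E := by
  obtain ⟨𝒜, h𝒜c, h𝒜⟩ := exists_countable_measureDense (μ := ν)
  obtain ⟨C, hC⟩ := h𝒜c.exists_eq_range h𝒜.nonempty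
  have hCm : ∀ k, MeasurableSet (C k) := fun k => h𝒜.measurable _ (hC ▸ mem_range_self k)
  refine ⟨{p | ∃ᶠ n in atTop, p.2 ∈ C (p.1 n)}, ?_, fun E hE => ?_⟩
  · have h1 : ∀ n, MeasurableSet {p : (ℕ → ℕ) × ℝ | p.2 ∈ C (p.1 n)} := by
      intro n
      have : {p : (ℕ → ℕ) × ℝ | p.2 ∈ C (p.1 n)} =
          ⋃ k, ({p : (ℕ → ℕ) × ℝ | p.1 n = k} ∩ Prod.snd ⁻¹' (C k)) := by
        ext p
        simp
      rw [this]
      refine MeasurableSet.iUnion fun k => MeasurableSet.inter ?_ (measurable_snd (hCm k))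
      exact (by fun_prop : Measurable fun p : (ℕ → ℕ) × ℝ => p.1 n) (measurableSet_singleton k)
    have : {p : (ℕ → ℕ) × ℝ | ∃ᶠ n in atTop, p.2 ∈ C (p.1 n)} =
        ⋂ N : ℕ, ⋃ n : ℕ, ⋃ _ : N ≤ n, {p | p.2 ∈ C (p.1 n)} := by
      ext p
      simp [frequently_atTop]
    rw [this]
    exact MeasurableSet.iInter fun N => MeasurableSet.iUnion fun n =>
      MeasurableSet.iUnion fun _ => h1 n
  · have h1 : ∀ n : ℕ, ∃ k, ν (E ∆ C k) < ENNReal.ofReal ((1 / 2) ^ n) := by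
      intro n
      obtain ⟨A, hA, hA2⟩ := h𝒜.approx E hE (measure_ne_top _ _) ((1 / 2 : ℝ) ^ n) (by positivity)
      rw [hC] at hA
      obtain ⟨k, rfl⟩ := hA
      exact ⟨k, hA2⟩
    choose κ hκ using h1
    refine ⟨κ, ?_⟩
    have h2 : ∑' n, ν (E ∆ C (κ n)) ≠ ∞ := by
      apply ne_top_of_le_ne_top _ (ENNReal.tsum_le_tsum fun n => (hκ n).le)
      rw [← ENNReal.ofReal_tsum_of_nonneg (fun n => by positivity)
        (summable_geometric_of_lt_one (by norm_num) (by norm_num))]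
      exact ENNReal.ofReal_ne_top
    have h3 := measure_limsup_atTop_eq_zero h2
    have h4 : ∀ᵐ t ∂ν, t ∉ limsup (fun n => E ∆ C (κ n)) atTop := by
      rw [ae_iff]
      simpa using h3
    filter_upwards [h4] with t ht
    rw [limsup_eq_iInf_iSup_of_nat] at ht
    simp only [iInf_eq_iInter, iSup_eq_iUnion, mem_iInter, mem_iUnion, not_forall, not_exists] at ht
    obtain ⟨N, hN⟩ := ht
    have h5 : ∀ n, N ≤ n → (t ∈ E ↔ t ∈ C (κ n)) := by
      intro n hn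
      have := hN n hn
      rw [Set.mem_symmDiff] at this
      tauto
    apply propext
    change (∃ᶠ n in atTop, t ∈ C (κ n)) ↔ t ∈ E
    rw [frequently_atTop]
    constructor
    · intro h
      obtain ⟨n, hn, hn2⟩ := h N
      exact (h5 n hn).2 hn2
    · intro h M
      exact ⟨max M N, le_max_left _ _, (h5 _ (le_max_right _ _)).1 h⟩

/-- Pairs of measurable subsets of the line can be coded by real numbers in a measurable way. -/
theorem exists_decode (ν : Measure ℝ) [IsFiniteMeasure ν] :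
    ∃ S1 S0 : Set (ℝ × ℝ), MeasurableSet S1 ∧ MeasurableSet S0 ∧
      ∀ E1 E0 : Set ℝ, MeasurableSet E1 → MeasurableSet E0 →
        ∃ x : ℝ, sec S1 x =ᵐ[ν] E1 ∧ sec S0 x =ᵐ[ν] E0 := by
  obtain ⟨S, hS, hSE⟩ := exists_decode_seq ν
  let e := embeddingReal ((ℕ → ℕ) × (ℕ → ℕ))
  have he : MeasurableEmbedding e := measurableEmbedding_embeddingReal _
  have h1 : Measurable he.invFun := he.measurable_invFun
  refine ⟨{p | ((he.invFun p.1).1, p.2) ∈ S}, {p | ((he.invFun p.1).2, p.2) ∈ S}, ?_, ?_,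
    fun E1 E0 hE1 hE0 => ?_⟩
  · exact (by fun_prop : Measurable fun p : ℝ × ℝ => ((he.invFun p.1).1, p.2)) hS
  · exact (by fun_prop : Measurable fun p : ℝ × ℝ => ((he.invFun p.1).2, p.2)) hS
  · obtain ⟨κ1, h1⟩ := hSE E1 hE1
    obtain ⟨κ0, h0⟩ := hSE E0 hE0
    refine ⟨e (κ1, κ0), ?_, ?_⟩
    · have : sec {p : ℝ × ℝ | ((he.invFun p.1).1, p.2) ∈ S} (e (κ1, κ0)) = Prod.mk κ1 ⁻¹' S := by
        ext t
        simp only [sec, mem_ofPred_eq, he.leftInverse_invFun (κ1, κ0), mem_preimage]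
      rw [this]
      exact h1
    · have : sec {p : ℝ × ℝ | ((he.invFun p.1).2, p.2) ∈ S} (e (κ1, κ0)) = Prod.mk κ0 ⁻¹' S := by
        ext t
        simp only [sec, mem_ofPred_eq, he.leftInverse_invFun (κ1, κ0), mem_preimage]
      rw [this]
      exact h0

end Pool.Agent.P9.Fib
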