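import Pool.Agent.P9.Fib.Pattern

/-!
# Density points
-/

namespace Pool.Agent.P9.Fib

open MeasureTheory Set Metric Filter Topology
open scoped ENNReal

/-- The point `t` is a density point of `E` with respect to `ν`. -/
def Dens (ν : Measure ℝ) (t : ℝ) (E : Set ℝ) : Prop :=
  (∀ j, ν (bl t j) ≠ 0) ∧ Tendsto (fun j => ν (bl t j ∩ Eᶜ) / ν (bl t j)) atTop (𝓝 0)

variable {ν : Measure ℝ} {t : ℝ}

theorem Dens.mono {E E' : Set ℝ} (h : Dens ν t E) (hE : E ⊆ E') : Dens ν t E' := by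
  refine ⟨h.1, tendsto_of_tendsto_of_tendsto_of_le_of_le tendsto_const_nhds h.2
    (fun _ => zero_le) fun j => ?_⟩
  have : ν (bl t j ∩ E'ᶜ) ≤ ν (bl t j ∩ Eᶜ) :=
    measure_mono (inter_subset_inter_right _ (compl_subset_compl.2 hE))
  exact ENNReal.div_le_div_right this _

theorem Dens.inter {E E' : Set ℝ} (h : Dens ν t E) (h' : Dens ν t E') : Dens ν t (E ∩ E') := by
  refine ⟨h.1, ?_⟩
  have h2 := h.2.add h'.2
  rw [add_zero] at h2
  refine tendsto_of_tendsto_of_tendsto_of_le_of_le tendsto_const_nhds h2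
    (fun _ => zero_le) fun j => ?_
  have : ν (bl t j ∩ (E ∩ E')ᶜ) ≤ ν (bl t j ∩ Eᶜ) + ν (bl t j ∩ E'ᶜ) := by
    rw [compl_inter, inter_union_distrib_left]
    exact measure_union_le _ _
  calc ν (bl t j ∩ (E ∩ E')ᶜ) / ν (bl t j) ≤ (ν (bl t j ∩ Eᶜ) + ν (bl t j ∩ E'ᶜ)) / ν (bl t j) :=
        ENNReal.div_le_div_right this _
    _ = _ := ENNReal.add_div

theorem Dens.pos [IsFiniteMeasure ν] {E : Set ℝ} (h : Dens ν t E) : Pos ν t E := by
  intro j hj
  have h1 : ∀ i, j ≤ i → 1 ≤ ν (bl t i ∩ Eᶜ) / ν (bl t i) := by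
    intro i hi
    have h2 : ν (bl t i ∩ E) = 0 :=
      measure_mono_null (inter_subset_inter_left _ (bl_anti t hi)) hj
    have h3 : ν (bl t i) ≤ ν (bl t i ∩ Eᶜ) := by
      calc ν (bl t i) ≤ ν ((bl t i ∩ E) ∪ (bl t i ∩ Eᶜ)) := by
            rw [inter_union_compl]
        _ ≤ ν (bl t i ∩ E) + ν (bl t i ∩ Eᶜ) := measure_union_le _ _
        _ = _ := by rw [h2, zero_add]
    rw [ENNReal.le_div_iff_mul_le (Or.inl (h.1 i)) (Or.inl (measure_ne_top _ _)), one_mul]
    exact h3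
  have h2 : ∀ᶠ i in atTop, ν (bl t i ∩ Eᶜ) / ν (bl t i) < 1 :=
    (tendsto_order.1 h.2).2 1 zero_lt_one
  obtain ⟨i, hi, hij⟩ := (h2.and (eventually_ge_atTop j)).exists
  exact absurd hi (not_lt.2 (h1 i hij))

theorem ae_dens (ν : Measure ℝ) [IsFiniteMeasure ν] {E : Set ℝ} (hE : MeasurableSet E) :
    ∀ᵐ t ∂ν, t ∈ E → Dens ν t E := by
  have h1 := Besicovitch.ae_tendsto_measure_inter_div_of_measurableSet ν hE.compl
  have h2 := Besicovitch.ae_tendsto_measure_inter_div_of_measurableSet ν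
    (MeasurableSet.univ : MeasurableSet (univ : Set ℝ))
  have hr : Tendsto (fun j : ℕ => 1 / ((j : ℝ) + 1)) atTop (𝓝[>] 0) := by
    rw [tendsto_nhdsWithin_iff]
    refine ⟨tendsto_one_div_add_atTop_nhds_zero_nat, Eventually.of_forall fun j => ?_⟩
    simp only [mem_Ioi]
    positivity
  filter_upwards [h1, h2] with t ht1 ht2 htE
  constructor
  · have h3 := ht2.comp hr
    simp only [univ_inter, indicator_univ, Pi.one_apply] at h3
    have h4 : ∀ᶠ j : ℕ in atTop, 0 < ν (closedBall t (1 / ((j : ℝ) + 1))) /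
        ν (closedBall t (1 / ((j : ℝ) + 1))) := (tendsto_order.1 h3).1 0 zero_lt_one
    obtain ⟨N, hN⟩ := eventually_atTop.1 h4
    intro j hj
    have h5 := hN (max j N) (le_max_right _ _)
    have h6 : ν (bl t (max j N)) = 0 :=
      measure_mono_null (bl_anti t (le_max_left _ _)) hj
    have h7 : ν (closedBall t (1 / (((max j N : ℕ) : ℝ) + 1))) = 0 := h6
    rw [h7] at h5
    simp at h5
  · have h3 := ht1.comp hr
    rw [indicator_of_notMem (by simpa using htE)] at h3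
    refine h3.congr fun j => ?_
    simp only [Function.comp, bl]
    rw [inter_comm]

section

variable {Z : Type} [MeasurableSpace Z] {m : Measure Z} {W : Set (Z × ℝ)}

theorem measurableSet_dens [SFinite ν] (hW : MeasurableSet W) :
    MeasurableSet {q : Z × ℝ | Dens ν q.2 (sec W q.1)} := by
  have h1 : ∀ j, Measurable fun q : Z × ℝ => ν (bl q.2 j ∩ (sec W q.1)ᶜ) := by
    intro j
    have h2 : MeasurableSet {q : (Z × ℝ) × ℝ | dist q.2 q.1.2 ≤ 1 / ((j : ℝ) + 1) ∧
        (q.1.1, q.2) ∈ Wᶜ} := by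
      apply MeasurableSet.inter
      · exact measurableSet_le (f := fun q : (Z × ℝ) × ℝ => dist q.2 q.1.2)
          (g := fun _ => 1 / ((j : ℝ) + 1)) (by fun_prop) (by fun_prop)
      · exact (by fun_prop : Measurable fun q : (Z × ℝ) × ℝ => (q.1.1, q.2)) hW.compl
    exact measurable_measure_prodMk_left h2
  have h2 : ∀ j, Measurable fun q : Z × ℝ => ν (bl q.2 j) := by
    intro j
    have h2 : MeasurableSet {q : (Z × ℝ) × ℝ | dist q.2 q.1.2 ≤ 1 / ((j : ℝ) + 1)} := by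
      exact measurableSet_le (f := fun q : (Z × ℝ) × ℝ => dist q.2 q.1.2)
          (g := fun _ => 1 / ((j : ℝ) + 1)) (by fun_prop) (by fun_prop)
    exact measurable_measure_prodMk_left h2
  have h3 : {q : Z × ℝ | Dens ν q.2 (sec W q.1)} =
      (⋂ j, {q : Z × ℝ | ν (bl q.2 j) ≠ 0}) ∩
      {q : Z × ℝ | Tendsto (fun j => ν (bl q.2 j ∩ (sec W q.1)ᶜ) / ν (bl q.2 j)) atTop (𝓝 0)} := by
    ext q
    simp only [Dens, mem_ofPred_eq, mem_inter_iff, mem_iInter]
  rw [h3]
  refine (MeasurableSet.iInter fun j => ?_).inter ?_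
  · exact (h2 j) (measurableSet_singleton (0 : ℝ≥0∞)).compl
  · exact measurableSet_tendsto _ fun j => (h1 j).div (h2 j)

/-- For almost all `t`, for almost all `z` with `t ∈ W_z`, the point `t` is a density point
of `W_z`. -/
theorem ae_ae_dens [SFinite m] [IsFiniteMeasure ν] (hW : MeasurableSet W) :
    ∀ᵐ t ∂ν, ∀ᵐ z ∂m, (z, t) ∈ W → Dens ν t (sec W z) := by
  rw [← Measure.ae_ae_comm]
  · exact Eventually.of_forall fun z => ae_dens ν (measurableSet_sec hW z)
  · have : {x : Z × ℝ | (x.1, x.2) ∈ W → Dens ν x.2 (sec W x.1)} =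
        Wᶜ ∪ {q : Z × ℝ | Dens ν q.2 (sec W q.1)} := by
      ext x
      simp only [mem_ofPred_eq, mem_union, mem_compl_iff]
      rw [imp_iff_not_or]
    rw [this]
    exact hW.compl.union (measurableSet_dens hW)

theorem G_of_dens [IsFiniteMeasure ν] (h : ∀ᵐ z ∂m, (z, t) ∈ W → Dens ν t (sec W z)) (n : ℕ) :
    ∀ k, Dens ν t k → G m ν W t n k := by
  induction n with
  | zero => exact fun k hk => hk.pos
  | succ n ih =>
    intro k hk
    refine ⟨ih k hk, ?_⟩
    filter_upwards [h] with z hz hzW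
    exact ih _ (hk.inter (hz hzW))

end

end Pool.Agent.P9.Fib
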