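import Pool.Agent.P9.Fib.Tree

/-!
# Reduction to measures whose measure algebra comes from the base
-/

namespace Pool.Agent.P9.Fib

open MeasureTheory Set Filter Topology
open scoped ENNReal

section

variable {K : Type*} [TopologicalSpace K] [MeasurableSpace K]

/-- Every open set is almost equal to the preimage of a measurable subset of the line. -/
def IsDirac (f : K → ℝ) (μ : Measure K) : Prop :=
  ∀ U : Set K, IsOpen U → ∃ E : Set ℝ, MeasurableSet E ∧ U =ᵐ[μ] f ⁻¹' E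

/-- Almost every fibre over `T` carries part of `A`. -/
def Full (μ : Measure K) (f : K → ℝ) (T : Set ℝ) (A : Set K) : Prop :=
  ∀ E : Set ℝ, MeasurableSet E → E ⊆ T → μ (A ∩ f ⁻¹' E) = 0 → μ (f ⁻¹' E) = 0

variable {μ : Measure K} {f : K → ℝ}

theorem Full.mono {T T' : Set ℝ} {A A' : Set K} (h : Full μ f T A) (hT : T' ⊆ T) (hA : A ⊆ A') :
    Full μ f T' A' := fun E hE hET h0 =>
  h E hE (hET.trans hT) (measure_mono_null (inter_subset_inter_left _ hA) h0)

/-- The essential image of a measurable set. -/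
theorem exists_essImage [IsFiniteMeasure μ] (hf : Measurable f) {A : Set K}
    (hA : MeasurableSet A) :
    ∃ I : Set ℝ, MeasurableSet I ∧ μ (A \ f ⁻¹' I) = 0 ∧ Full μ f I A := by
  let ν := μ.map f
  let νA := (μ.restrict A).map f
  obtain ⟨I, hI, hI0, hI1⟩ := Measure.mutuallySingular_singularPart ν νA
  refine ⟨I, hI, ?_, fun E hE hEI h0 => ?_⟩
  · rw [Measure.map_apply hf hI.compl, Measure.restrict_apply (hf hI.compl)] at hI1
    rw [sdiff_eq, inter_comm]
    exact hI1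
  · have h1 : νA E = 0 := by
      rw [Measure.map_apply hf hE, Measure.restrict_apply (hf hE), inter_comm]
      exact h0
    have h2 : ν E = 0 := by
      rw [Measure.haveLebesgueDecomposition_add ν νA, Measure.add_apply,
        measure_mono_null hEI hI0, withDensity_absolutelyContinuous _ _ h1, add_zero]
    rwa [Measure.map_apply hf hE] at h2

theorem exists_split [BorelSpace K] [IsFiniteMeasure μ] [μ.WeaklyRegular]
    (hf : Measurable f) {D : Set K} (hDm : MeasurableSet D)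
    (hD : ∀ D' ⊆ D, MeasurableSet D' → μ D' ≠ 0 → ¬ IsDirac f (μ.restrict D'))
    {F : Set K} (hF : IsClosed F) {T : Set ℝ} (hT : MeasurableSet T) (hT0 : μ (f ⁻¹' T) ≠ 0)
    (hFull : Full μ f T (F ∩ D)) :
    ∃ T' ⊆ T, MeasurableSet T' ∧ μ (f ⁻¹' T') ≠ 0 ∧ ∃ F1 F2 : Set K, IsClosed F1 ∧ IsClosed F2 ∧
      F1 ⊆ F ∧ F2 ⊆ F ∧ Disjoint F1 F2 ∧ Full μ f T' (F1 ∩ D) ∧ Full μ f T' (F2 ∩ D) := by
  have hFm : MeasurableSet F := hF.measurableSet
  let D' := F ∩ D ∩ f ⁻¹' T
  have hD'm : MeasurableSet D' := (hFm.inter hDm).inter (hf hT)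
  have hD'0 : μ D' ≠ 0 := fun h => hT0 (hFull T hT Subset.rfl h)
  have h1 := hD D' (fun x hx => hx.1.2) hD'm hD'0
  rw [IsDirac] at h1
  push Not at h1
  obtain ⟨U, hU, hUE⟩ := h1
  have hUm : MeasurableSet U := hU.measurableSet
  obtain ⟨I0, hI0, hI0A, hI0F⟩ := exists_essImage (μ := μ) hf (hD'm.diff hUm)
  obtain ⟨I1, hI1, hI1A, hI1F⟩ := exists_essImage (μ := μ) hf (hD'm.inter hUm)
  have h2 : μ (f ⁻¹' (I0 ∩ I1)) ≠ 0 := by
    intro h0
    apply hUE I1 hI1
    rw [ae_eq_set]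
    constructor
    · rw [Measure.restrict_apply (hUm.diff (hf hI1))]
      refine measure_mono_null ?_ hI1A
      intro x hx
      exact ⟨⟨hx.2, hx.1.1⟩, hx.1.2⟩
    · rw [Measure.restrict_apply ((hf hI1).diff hUm)]
      refine measure_mono_null ?_ (measure_union_null hI0A h0)
      intro x hx
      by_cases hxI : f x ∈ I0
      · exact Or.inr ⟨hxI, hx.1.1⟩
      · exact Or.inl ⟨⟨hx.2, hx.1.2⟩, hxI⟩
  have h3 : μ (D' ∩ U ∩ f ⁻¹' (I0 ∩ I1)) ≠ 0 := fun h0 =>
    h2 (hI1F _ (hI0.inter hI1) inter_subset_right h0)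
  let B := D' ∩ f ⁻¹' (I0 ∩ I1)
  have hBm : MeasurableSet B := hD'm.inter (hf (hI0.inter hI1))
  obtain ⟨C, hCU, hC, hCU0⟩ := hUm.exists_isClosed_sdiff_lt (measure_ne_top μ U) h3
  have h4 : μ (C ∩ B) ≠ 0 := by
    intro h0
    apply lt_irrefl (μ (U \ C))
    refine lt_of_lt_of_le hCU0 ?_
    calc μ (D' ∩ U ∩ f ⁻¹' (I0 ∩ I1)) ≤ μ ((U \ C) ∪ (C ∩ B)) := by
          apply measure_mono
          intro x hx
          by_cases hxC : x ∈ C
          · exact Or.inr ⟨hxC, hx.1.1, hx.2⟩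
          · exact Or.inl ⟨hx.1.2, hxC⟩
      _ ≤ μ (U \ C) + μ (C ∩ B) := measure_union_le _ _
      _ = μ (U \ C) := by rw [h0, add_zero]
  obtain ⟨I2, hI2, hI2A, hI2F⟩ := exists_essImage (μ := μ) hf (hC.measurableSet.inter hBm)
  refine ⟨T ∩ (I0 ∩ I1 ∩ I2), inter_subset_left, hT.inter ((hI0.inter hI1).inter hI2), ?_,
    F ∩ C, F \ U, hF.inter hC, hF.sdiff hU, inter_subset_left, sdiff_subset, ?_, ?_, ?_⟩
  · intro h0
    apply h4
    refine measure_mono_null ?_ (measure_union_null hI2A h0)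
    intro x hx
    by_cases hxI : f x ∈ I2
    · exact Or.inr ⟨hx.2.1.2, hx.2.2, hxI⟩
    · exact Or.inl ⟨hx, hxI⟩
  · rw [disjoint_left]
    intro x hx hx'
    exact hx'.2 (hCU hx.2)
  · intro E hE hET h0
    apply hI2F E hE (fun t ht => (hET ht).2.2)
    refine measure_mono_null ?_ h0
    intro x hx
    exact ⟨⟨⟨hx.1.2.1.1.1, hx.1.1⟩, hx.1.2.1.1.2⟩, hx.2⟩
  · intro E hE hET h0
    apply hI0F E hE (fun t ht => (hET ht).2.1.1)
    refine measure_mono_null ?_ h0
    intro x hx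
    exact ⟨⟨⟨hx.1.1.1.1, hx.1.2⟩, hx.1.1.1.2⟩, hx.2⟩

theorem exists_level [BorelSpace K] [IsFiniteMeasure μ] [μ.WeaklyRegular]
    (hf : Measurable f) {D : Set K} (hDm : MeasurableSet D)
    (hD : ∀ D' ⊆ D, MeasurableSet D' → μ D' ≠ 0 → ¬ IsDirac f (μ.restrict D'))
    {T : Set ℝ} (hT : MeasurableSet T) (hT0 : μ (f ⁻¹' T) ≠ 0)
    (F : List Bool → Set K) (S : Finset (List Bool)) :
    (∀ s ∈ S, IsClosed (F s) ∧ Full μ f T (F s ∩ D)) →
    ∃ T' ⊆ T, MeasurableSet T' ∧ μ (f ⁻¹' T') ≠ 0 ∧ ∃ H : List Bool → Set K,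
      ∀ s ∈ S, (∀ b, IsClosed (H (b :: s)) ∧ H (b :: s) ⊆ F s ∧ Full μ f T' (H (b :: s) ∩ D)) ∧
        Disjoint (H (true :: s)) (H (false :: s)) := by
  classical
  induction S using Finset.induction_on with
  | empty => exact fun _ => ⟨T, Subset.rfl, hT, hT0, fun _ => ∅, by simp⟩
  | insert a S ha ih =>
    intro h
    obtain ⟨T1, hT1, hT1m, hT10, H, hH⟩ := ih fun s hs => h s (Finset.mem_insert_of_mem hs)
    obtain ⟨ha1, ha2⟩ := h a (Finset.mem_insert_self a S)
    obtain ⟨T2, hT2, hT2m, hT20, F1, F2, hF1, hF2, hF1F, hF2F, hF12, hF1D, hF2D⟩ :=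
      exists_split hf hDm hD ha1 hT1m hT10 (ha2.mono hT1 Subset.rfl)
    refine ⟨T2, hT2.trans hT1, hT2m, hT20,
      fun s => if s = true :: a then F1 else if s = false :: a then F2 else H s, fun s hs => ?_⟩
    rcases Finset.mem_insert.1 hs with rfl | hs
    · refine ⟨fun b => ?_, ?_⟩
      · cases b
        · simp only [List.cons.injEq, Bool.false_eq_true, false_and, if_false, if_true]
          exact ⟨hF2, hF2F, hF2D⟩
        · simp only [if_true]
          exact ⟨hF1, hF1F, hF1D⟩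
      · simpa using hF12
    · have hsa : s ≠ a := fun h => ha (h ▸ hs)
      obtain ⟨h1, h2⟩ := hH s hs
      refine ⟨fun b => ?_, ?_⟩
      · obtain ⟨h3, h4, h5⟩ := h1 b
        have : (if b :: s = true :: a then F1 else if b :: s = false :: a then F2 else H (b :: s)) =
            H (b :: s) := by
          rw [if_neg, if_neg]
          · simp [hsa]
          · simp [hsa]
        simp only [this]
        exact ⟨h3, h4, h5.mono hT2 Subset.rfl⟩
      · simpa [hsa] using h2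

end

section

variable {K : Type*} [TopologicalSpace K] [CompactSpace K] [T2Space K] [MeasurableSpace K]
  [BorelSpace K] {μ : Measure K} [IsFiniteMeasure μ] [μ.WeaklyRegular] {f : K → ℝ}

/-- All fibres are scattered. -/
def ScatteredFibres (f : K → ℝ) : Prop :=
  ∀ t : ℝ, ∀ A : Set K, A ⊆ f ⁻¹' {t} → A.Nonempty → ∃ x ∈ A, ∃ U : Set K, IsOpen U ∧ U ∩ A = {x}

theorem exists_isDirac (hf : Continuous f) (hsc : ScatteredFibres f) {D : Set K}
    (hDm : MeasurableSet D) (hD0 : μ D ≠ 0) :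
    ∃ D' ⊆ D, MeasurableSet D' ∧ μ D' ≠ 0 ∧ IsDirac f (μ.restrict D') := by
  by_contra hcon
  have hD : ∀ D' ⊆ D, MeasurableSet D' → μ D' ≠ 0 → ¬ IsDirac f (μ.restrict D') :=
    fun D' h1 h2 h3 h4 => hcon ⟨D', h1, h2, h3, h4⟩
  have hfm : Measurable f := hf.measurable
  let L : ℕ → Finset (List Bool) := fun n => (List.finite_length_eq Bool n).toFinset
  have hL : ∀ n s, s ∈ L n ↔ s.length = n := fun n s => by simp [L]
  let Q : ℕ → (Set ℝ × (List Bool → Set K)) → Prop := fun n p =>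
    MeasurableSet p.1 ∧ μ (f ⁻¹' p.1) ≠ 0 ∧
      ∀ s ∈ L n, IsClosed (p.2 s) ∧ Full μ f p.1 (p.2 s ∩ D)
  have step : ∀ n p, Q n p → ∃ q, Q (n + 1) q ∧ q.1 ⊆ p.1 ∧
      ∀ s ∈ L n, (∀ b, q.2 (b :: s) ⊆ p.2 s) ∧ Disjoint (q.2 (true :: s)) (q.2 (false :: s)) := by
    rintro n p ⟨hp1, hp2, hp3⟩
    obtain ⟨T', hT', hT'm, hT'0, H, hH⟩ := exists_level hfm hDm hD hp1 hp2 p.2 (L n) hp3
    refine ⟨(T', H), ⟨hT'm, hT'0, fun s hs => ?_⟩, hT', fun s hs => ⟨fun b => ?_, (hH s hs).2⟩⟩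
    · cases s with
      | nil =>
        rw [hL] at hs
        simp at hs
      | cons b s =>
        have : s ∈ L n := by
          rw [hL] at hs ⊢
          simpa using hs
        exact ⟨((hH s this).1 b).1, ((hH s this).1 b).2.2⟩
    · exact ((hH s hs).1 b).2.1
  have hbase : ∃ q, Q 0 q := by
    obtain ⟨I, hI, hI1, hI2⟩ := exists_essImage (μ := μ) hfm hDm
    refine ⟨(I, fun _ => univ), hI, ?_, fun s _ => ⟨isClosed_univ, ?_⟩⟩
    · intro h0
      apply hD0
      refine measure_mono_null ?_ (measure_union_null hI1 h0)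
      intro x hx
      by_cases h : f x ∈ I
      · exact Or.inr h
      · exact Or.inl ⟨hx, h⟩
    · rw [univ_inter]
      exact hI2
  obtain ⟨q0, hq0⟩ := hbase
  choose nx hnx1 hnx2 hnx3 using step
  let u : ∀ n, {p // Q n p} := fun n =>
    Nat.rec ⟨q0, hq0⟩ (fun n p => ⟨nx n p.1 p.2, hnx1 n p.1 p.2⟩) n
  have hu : ∀ n, (u (n + 1)).1 = nx n (u n).1 (u n).2 := fun n => rfl
  let F : List Bool → Set K := fun s => (u s.length).1.2 s
  have hFc : ∀ s, IsClosed (F s) := fun s =>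
    ((u s.length).2.2.2 s ((hL _ _).2 rfl)).1
  have hFn : ∀ b s, F (b :: s) ⊆ F s := by
    intro b s
    exact (hnx3 s.length (u s.length).1 (u s.length).2 s ((hL _ _).2 rfl)).1 b
  have hFd : ∀ s, Disjoint (F (true :: s)) (F (false :: s)) := by
    intro s
    exact (hnx3 s.length (u s.length).1 (u s.length).2 s ((hL _ _).2 rfl)).2
  -- the compact sets
  let V : ℕ → Set ℝ := fun n => ⋂ s ∈ L n, f '' (F s)
  have hFcomp : ∀ s, IsCompact (f '' (F s)) := fun s => (hFc s).isCompact.image hf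
  have hV1 : ∀ n, (V n).Nonempty := by
    intro n
    let T := (u n).1.1
    have hT : MeasurableSet T := (u n).2.1
    have hT0 : μ (f ⁻¹' T) ≠ 0 := (u n).2.2.1
    have h1 : ∀ s ∈ L n, μ (f ⁻¹' (T \ f '' (F s))) = 0 := by
      intro s hs
      have h2 : Full μ f T (F s ∩ D) := by
        have h3 := ((u n).2.2.2 s hs).2
        have h4 : s.length = n := (hL _ _).1 hs
        subst h4
        exact h3
      apply h2 _ (hT.diff (hFcomp s).measurableSet) sdiff_subset
      convert! measure_empty (μ := μ)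
      rw [eq_empty_iff_forall_notMem]
      rintro x ⟨hx1, hx2⟩
      exact hx2.2 ⟨x, hx1.1, rfl⟩
    have h2 : μ (f ⁻¹' (T \ V n)) = 0 := by
      have : f ⁻¹' (T \ V n) ⊆ ⋃ s ∈ L n, f ⁻¹' (T \ f '' (F s)) := by
        intro x hx
        have h3 : f x ∉ V n := hx.2
        simp only [V, mem_iInter, not_forall] at h3
        obtain ⟨s, hs, hxs⟩ := h3
        simp only [mem_iUnion]
        exact ⟨s, hs, hx.1, hxs⟩
      refine measure_mono_null this ?_
      exact (measure_biUnion_null_iff (L n).countable_toSet).2 fun s hs => h1 s hs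
    by_contra hemp
    rw [not_nonempty_iff_eq_empty] at hemp
    rw [hemp, sdiff_empty] at h2
    exact hT0 h2
  have hV2 : ∀ n, V (n + 1) ⊆ V n := by
    intro n t ht
    simp only [V, mem_iInter] at ht ⊢
    intro s hs
    have h1 := ht (true :: s) (by rw [hL] at hs ⊢; simp [hs])
    exact image_mono (hFn true s) h1
  have hV3 : ∀ n, IsClosed (V n) := fun n =>
    isClosed_biInter fun s _ => (hFcomp s).isClosed
  have hV4 : IsCompact (V 0) := by
    refine (hFcomp []).of_isClosed_subset (hV3 0) ?_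
    intro t ht
    simp only [V, mem_iInter] at ht
    exact ht [] ((hL _ _).2 rfl)
  obtain ⟨t, ht⟩ := IsCompact.nonempty_iInter_of_sequence_nonempty_isCompact_isClosed V hV2 hV1
    hV4 hV3
  rw [mem_iInter] at ht
  obtain ⟨A, hAt, hAne, hA⟩ := exists_no_isolated (C := f ⁻¹' {t})
    (isClosed_singleton.preimage hf) hFc hFn hFd (by
      intro s
      have h1 := ht s.length
      simp only [V, mem_iInter] at h1
      obtain ⟨x, hx, hxt⟩ := h1 s ((hL _ _).2 rfl)
      exact ⟨x, hxt, hx⟩)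
  obtain ⟨x, hx, U, hU, hUA⟩ := hsc t A hAt hAne
  exact hA x hx U hU hUA

end

end Pool.Agent.P9.Fib
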