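import Pool.Agent.P9.Fib.Dirac

/-!
# Exhaustion by sets on which the measure algebra comes from the base
-/

namespace Pool.Agent.P9.Fib

open MeasureTheory Set Filter Topology
open scoped ENNReal

variable {K : Type*} [TopologicalSpace K] [CompactSpace K] [T2Space K] [MeasurableSpace K]
  [BorelSpace K] {μ : Measure K} [IsFiniteMeasure μ] [μ.WeaklyRegular] {f : K → ℝ}

theorem exists_cover (hf : Continuous f) (hsc : ScatteredFibres f) :
    ∃ D : ℕ → Set K, (∀ i, MeasurableSet (D i)) ∧ (∀ i, IsDirac f (μ.restrict (D i))) ∧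
      μ (⋃ i, D i)ᶜ = 0 := by
  let S : Set (Set K) := {A | ∃ D : ℕ → Set K, (∀ i, MeasurableSet (D i)) ∧
    (∀ i, IsDirac f (μ.restrict (D i))) ∧ A = ⋃ i, D i}
  have hdir0 : IsDirac f (μ.restrict ∅) := by
    intro U hU
    exact ⟨∅, MeasurableSet.empty, by
      rw [Measure.restrict_empty]
      simp [EventuallyEq]⟩
  have hS0 : ∅ ∈ S := ⟨fun _ => ∅, fun _ => MeasurableSet.empty, fun _ => hdir0, by simp⟩
  have hSm : ∀ A ∈ S, MeasurableSet A := by
    rintro A ⟨D, hD, -, rfl⟩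
    exact MeasurableSet.iUnion hD
  obtain ⟨u, -, hu, huS⟩ := exists_seq_tendsto_sSup (S := μ '' S) ⟨μ ∅, ∅, hS0, rfl⟩
    (OrderTop.bddAbove _)
  choose A hAS hAu using huS
  have hB : (⋃ n, A n) ∈ S := by
    choose D hD1 hD2 hD3 using hAS
    refine ⟨fun i => D i.unpair.1 i.unpair.2, fun i => hD1 _ _, fun i => hD2 _ _, ?_⟩
    ext x
    simp only [mem_iUnion]
    constructor
    · rintro ⟨n, hn⟩
      rw [hD3 n, mem_iUnion] at hn
      obtain ⟨j, hj⟩ := hn
      exact ⟨Nat.pair n j, by simpa using hj⟩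
    · rintro ⟨i, hi⟩
      exact ⟨i.unpair.1, by rw [hD3]; exact mem_iUnion.2 ⟨_, hi⟩⟩
  have hBmax : ∀ C ∈ S, μ C ≤ μ (⋃ n, A n) := by
    intro C hC
    refine le_trans (le_sSup (show μ C ∈ μ '' S from ⟨C, hC, rfl⟩)) (le_of_tendsto' hu fun n => ?_)
    rw [← hAu n]
    exact measure_mono (subset_iUnion A n)
  by_contra hcon
  push Not at hcon
  have hB0 : μ (⋃ n, A n)ᶜ ≠ 0 := by
    obtain ⟨D, hD1, hD2, hD3⟩ := hB
    rw [hD3]
    exact hcon D hD1 hD2
  obtain ⟨D', hD'B, hD'm, hD'0, hD'⟩ := exists_isDirac hf hsc (hSm _ hB).compl hB0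
  have h1 : D' ∪ (⋃ n, A n) ∈ S := by
    obtain ⟨D, hD1, hD2, hD3⟩ := hB
    refine ⟨fun i => Nat.casesOn i D' D, fun i => ?_, fun i => ?_, ?_⟩
    · cases i
      · exact hD'm
      · exact hD1 _
    · cases i
      · exact hD'
      · exact hD2 _
    · rw [hD3]
      ext x
      simp only [mem_union, mem_iUnion]
      constructor
      · rintro (h | ⟨i, hi⟩)
        · exact ⟨0, h⟩
        · exact ⟨i + 1, hi⟩
      · rintro ⟨i, hi⟩
        cases i
        · exact Or.inl hi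
        · exact Or.inr ⟨_, hi⟩
  have h2 := hBmax _ h1
  rw [measure_union (disjoint_left.2 fun x hx hx' => hD'B hx hx') (hSm _ hB)] at h2
  have h3 : μ (⋃ n, A n) < μ D' + μ (⋃ n, A n) := by
    rw [add_comm]
    exact ENNReal.lt_add_right (measure_ne_top _ _) hD'0
  exact absurd h2 (not_le.2 h3)

end Pool.Agent.P9.Fib
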