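import Mathlib

/-!
# Functions continuous on a set agree on it with a measurable function
-/

namespace Pool.Agent.P9.Fib

open MeasureTheory Set Filter Topology
open scoped ENNReal

theorem exists_measurable_eqOn {a : ℝ → ℝ} {A : Set ℝ} (ha : ContinuousOn a A) :
    ∃ g : ℝ → ℝ, Measurable g ∧ ∀ x ∈ A, a x = g x := by
  classical
  rcases A.eq_empty_or_nonempty with rfl | hA
  · exact ⟨fun _ => 0, measurable_const, fun x hx => absurd hx (notMem_empty x)⟩
  haveI := hA.to_subtype
  let d : ℕ → A := TopologicalSpace.denseSeq A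
  have hd : DenseRange d := TopologicalSpace.denseRange_denseSeq A
  let P : ℕ → ℝ → ℕ → Prop := fun n x k =>
    dist x (d k) < 1 / ((n : ℝ) + 1) ∨ ∀ j, ¬ dist x (d j) < 1 / ((n : ℝ) + 1)
  have hP : ∀ n x, ∃ k, P n x k := by
    intro n x
    by_cases h : ∃ k, dist x (d k) < 1 / ((n : ℝ) + 1)
    · obtain ⟨k, hk⟩ := h
      exact ⟨k, Or.inl hk⟩
    · push Not at h
      exact ⟨0, Or.inr fun j => not_lt.2 (h j)⟩
  have hm : ∀ n k, MeasurableSet {x | dist x (d k : ℝ) < 1 / ((n : ℝ) + 1)} := fun n k =>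
    (isOpen_lt (by fun_prop) (by fun_prop)).measurableSet
  have hPm : ∀ n k, MeasurableSet {x | P n x k} := by
    intro n k
    have : {x | P n x k} = {x | dist x (d k : ℝ) < 1 / ((n : ℝ) + 1)} ∪
        ⋂ j, {x | dist x (d j : ℝ) < 1 / ((n : ℝ) + 1)}ᶜ := by
      ext x
      simp only [P, mem_ofPred_eq, mem_union, mem_iInter, mem_compl_iff]
    rw [this]
    exact (hm n k).union (MeasurableSet.iInter fun j => (hm n j).compl)
  let κ : ℕ → ℝ → ℕ := fun n x => Nat.find (hP n x)
  have hκ : ∀ n, Measurable (κ n) := fun n => measurable_find (hP n) (hPm n)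
  let G : ℕ → ℝ → ℝ := fun n x => a (d (κ n x))
  have hG : ∀ n, Measurable (G n) := fun n =>
    (measurable_from_nat (f := fun k => a (d k))).comp (hκ n)
  refine ⟨fun x => limsup (fun n => G n x) atTop, Measurable.limsup hG, fun x hx => ?_⟩
  have h1 : ∀ n, dist x (d (κ n x)) < 1 / ((n : ℝ) + 1) := by
    intro n
    rcases Nat.find_spec (hP n x) with h | h
    · exact h
    · exfalso
      obtain ⟨k, hk⟩ := hd.exists_dist_lt ⟨x, hx⟩ (show (0 : ℝ) < 1 / ((n : ℝ) + 1) by positivity)
      exact h k hk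
  have h2 : Tendsto (fun n => ((d (κ n x) : A) : ℝ)) atTop (𝓝[A] x) := by
    rw [tendsto_nhdsWithin_iff]
    refine ⟨?_, Eventually.of_forall fun n => (d (κ n x)).2⟩
    rw [tendsto_iff_dist_tendsto_zero]
    refine squeeze_zero (fun _ => dist_nonneg) (fun n => ?_) tendsto_one_div_add_atTop_nhds_zero_nat
    rw [dist_comm]
    exact (h1 n).le
  have h3 : Tendsto (fun n => G n x) atTop (𝓝 (a x)) := (ha x hx).tendsto.comp h2
  exact h3.limsup_eq.symm

end Pool.Agent.P9.Fib
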