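import Pool.Agent.P9.Fib.Key
import Pool.Agent.P9.Fib.Extend

/-!
# Final form
-/

namespace Pool.Agent.P9.Fib

open MeasureTheory Set Filter Topology
open scoped ENNReal

theorem separable {K : Type*} [TopologicalSpace K] [CompactSpace K] [T2Space K]
    [MeasurableSpace K] [BorelSpace K] (μ : Measure K) [IsFiniteMeasure μ] [μ.IsOpenPosMeasure]
    [μ.Regular] (hA : ∀ a : ℝ → ℝ, GraphNonNull a) {f : K → (ℕ → Bool)} (hf : Continuous f)
    (hsc : ∀ t : ℕ → Bool, ∀ A : Set K, A ⊆ f ⁻¹' {t} → A.Nonempty →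
      ∃ x ∈ A, ∃ U : Set K, IsOpen U ∧ U ∩ A = {x}) :
    TopologicalSpace.SeparableSpace K := by
  let e : (ℕ → Bool) → ℝ := fun x => (cantorSetHomeomorphNatToBool.symm x : ℝ)
  have he : Continuous e := by
    exact continuous_subtype_val.comp cantorSetHomeomorphNatToBool.symm.continuous
  have hei : Function.Injective e := fun x y h =>
    cantorSetHomeomorphNatToBool.symm.injective (Subtype.ext h)
  let F : K → ℝ := e ∘ f
  have hF : Continuous F := he.comp hf
  have hFs : ScatteredFibres F := by
    intro t A hA hAne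
    obtain ⟨x0, hx0⟩ := hAne
    apply hsc (f x0) A _ ⟨x0, hx0⟩
    intro x hx
    apply hei
    have h1 : e (f x) = t := hA hx
    have h2 : e (f x0) = t := hA hx0
    rw [h1, h2]
  obtain ⟨D, hDm, hD, hD0⟩ := exists_cover (μ := μ) hF hFs
  have h1 : ∀ i, ∃ S : Set K, S.Countable ∧ ∀ U : Set K, IsOpen U → μ.restrict (D i) U ≠ 0 →
      (U ∩ S).Nonempty := by
    intro i
    have : (μ.restrict (D i)).WeaklyRegular :=
      Measure.WeaklyRegular.restrict_of_measure_ne_top (measure_ne_top _ _)
    exact key (μ := μ.restrict (D i)) hA hF hFs (hD i)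
  choose S hSc hS using h1
  refine ⟨⋃ i, S i, countable_iUnion hSc, ?_⟩
  rw [dense_iff_inter_open]
  intro U hU hUne
  have h2 : μ U ≠ 0 := (hU.measure_pos μ hUne).ne'
  have h3 : ∃ i, μ.restrict (D i) U ≠ 0 := by
    by_contra h
    push Not at h
    apply h2
    have h4 : μ (⋃ i, (U ∩ D i)) = 0 := by
      rw [measure_iUnion_null_iff]
      intro i
      rw [← Measure.restrict_apply hU.measurableSet]
      exact h i
    refine measure_mono_null ?_ (measure_union_null h4 hD0)
    intro x hx
    by_cases hxD : x ∈ ⋃ i, D i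
    · left
      rw [mem_iUnion] at hxD ⊢
      obtain ⟨i, hi⟩ := hxD
      exact ⟨i, hx, hi⟩
    · exact Or.inr hxD
  obtain ⟨i, hi⟩ := h3
  obtain ⟨x, hxU, hxS⟩ := hS i U hU hi
  exact ⟨x, hxU, mem_iUnion.2 ⟨i, hxS⟩⟩

/-- A function that agrees with a measurable function on a set of positive outer measure has a
non-null graph. -/
theorem graphNonNull_of_measurable {a g : ℝ → ℝ} (hg : Measurable g)
    (h : volume {x | a x = g x} ≠ 0) : GraphNonNull a := by
  -- a bounded piece
  have h1 : ∃ n : ℕ, volume ({x | a x = g x} ∩ Metric.ball (0 : ℝ) n) ≠ 0 := by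
    by_contra hcon
    push Not at hcon
    apply h
    have h2 := measure_iUnion_null hcon
    refine measure_mono_null ?_ h2
    intro x hx
    obtain ⟨n, hn⟩ := exists_nat_gt |x|
    exact mem_iUnion.2 ⟨n, hx, by simpa using hn⟩
  obtain ⟨n, hn⟩ := h1
  let B : Set ℝ := Metric.ball (0 : ℝ) n
  have hB0 : volume B ≠ 0 := fun h0 => hn (measure_mono_null inter_subset_right h0)
  have hB1 : volume B ≠ ∞ := measure_ball_lt_top.ne
  let ρ : Measure ℝ := (volume B)⁻¹ • volume.restrict B
  have hρ : IsProbabilityMeasure ρ := by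
    refine ⟨?_⟩
    simp only [ρ, Measure.smul_apply, Measure.restrict_apply_univ, smul_eq_mul]
    exact ENNReal.inv_mul_cancel hB0 hB1
  have hG : Measurable fun x : ℝ => (x, g x) := by fun_prop
  refine ⟨ρ.map fun x => (x, g x), ?_, ?_, ?_⟩
  · exact Measure.isProbabilityMeasure_map hG.aemeasurable
  · rw [Measure.map_map measurable_fst hG]
    have : (Prod.fst ∘ fun x : ℝ => (x, g x)) = id := rfl
    rw [this, Measure.map_id]
    exact (Measure.smul_absolutelyContinuous).trans Measure.restrict_le_self.absolutelyContinuous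
  · intro h0
    have h2 := Measure.le_map_apply (μ := ρ) hG.aemeasurable {q : ℝ × ℝ | q.2 = a q.1}
    rw [h0] at h2
    have h3 : ρ {x | a x = g x} = 0 := by
      refine le_antisymm (le_trans (measure_mono ?_) h2) zero_le
      intro x hx
      exact (show g x = a x from (show a x = g x from hx).symm)
    simp only [ρ, Measure.smul_apply, smul_eq_mul, mul_eq_zero, ENNReal.inv_eq_zero] at h3
    rcases h3 with h3 | h3
    · exact hB1 h3
    · apply hn
      rw [← Measure.restrict_apply' Metric.isOpen_ball.measurableSet]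
      exact h3

/-- If `S` meets every null set in a countable set, and the graph of `a` over `S` is not null for
some non-atomic Borel probability measure, then the graph of `a` is not null for some Borel
probability measure with absolutely continuous first marginal. -/
theorem graphNonNull_of_sierpinski {a : ℝ → ℝ} {S : Set ℝ}
    (hS : ∀ N, volume N = 0 → (S ∩ N).Countable) {m : Measure (ℝ × ℝ)} [IsProbabilityMeasure m]
    [NullSingletonClass m] (h : m {q | q.1 ∈ S ∧ q.2 = a q.1} ≠ 0) : GraphNonNull a := by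
  let ν : Measure ℝ := m.map Prod.fst
  obtain ⟨N, hN, hN0, hN1⟩ := Measure.mutuallySingular_singularPart ν volume
  -- `volume Nᶜ = 0` and the singular part of `ν` vanishes on `N`
  have h1 : m {q | q.1 ∈ S ∩ Nᶜ ∧ q.2 = a q.1} = 0 := by
    have hc : {q : ℝ × ℝ | q.1 ∈ S ∩ Nᶜ ∧ q.2 = a q.1}.Countable := by
      have : {q : ℝ × ℝ | q.1 ∈ S ∩ Nᶜ ∧ q.2 = a q.1} ⊆ (fun x => (x, a x)) '' (S ∩ Nᶜ) := by
        rintro ⟨x, y⟩ ⟨hx, hy⟩
        exact ⟨x, hx, by simp only at hy; rw [hy]⟩
      exact ((hS _ hN1).image _).mono this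
    exact hc.measure_zero m
  have h2 : m ({q | q.2 = a q.1} ∩ Prod.fst ⁻¹' N) ≠ 0 := by
    intro h0
    apply h
    refine measure_mono_null ?_ (measure_union_null h1 h0)
    rintro q ⟨hq1, hq2⟩
    by_cases hq : q.1 ∈ N
    · exact Or.inr ⟨hq2, hq⟩
    · exact Or.inl ⟨⟨hq1, hq⟩, hq2⟩
  let B : Set (ℝ × ℝ) := Prod.fst ⁻¹' N
  have hBm : MeasurableSet B := measurable_fst hN
  have hB0 : m B ≠ 0 := fun h0 => h2 (measure_mono_null inter_subset_right h0)
  have hB1 : m B ≠ ∞ := measure_ne_top _ _
  refine ⟨(m B)⁻¹ • m.restrict B, ⟨?_⟩, ?_, ?_⟩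
  · simp only [Measure.smul_apply, Measure.restrict_apply_univ, smul_eq_mul]
    exact ENNReal.inv_mul_cancel hB0 hB1
  · rw [Measure.map_smul]
    refine Measure.AbsolutelyContinuous.trans Measure.smul_absolutelyContinuous ?_
    refine Measure.AbsolutelyContinuous.mk fun E hE hE0 => ?_
    rw [Measure.map_apply measurable_fst hE, Measure.restrict_apply (measurable_fst hE)]
    have h3 : ν (E ∩ N) = 0 := by
      rw [Measure.haveLebesgueDecomposition_add ν volume, Measure.add_apply,
        measure_mono_null inter_subset_right hN0,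
        withDensity_absolutelyContinuous _ _ (measure_mono_null inter_subset_left hE0), add_zero]
    rw [Measure.map_apply measurable_fst (hE.inter hN)] at h3
    exact h3
  · simp only [Measure.smul_apply, smul_eq_mul, ne_eq, mul_eq_zero, ENNReal.inv_eq_zero, not_or]
    refine ⟨hB1, ?_⟩
    rw [Measure.restrict_apply' hBm]
    exact h2

end Pool.Agent.P9.Fib
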