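import Mathlib

/-!
# Countable sets hitting all sets of positive measure
-/

namespace Pool.Agent.P9.Fib

open MeasureTheory Set Filter Topology
open scoped ENNReal Pointwise

theorem ae_exists_rat {B : Set ℝ} (hB : MeasurableSet B) (hB0 : volume B ≠ 0) :
    ∀ᵐ y : ℝ, ∃ r : ℚ, y + r ∈ B := by
  let N : Set ℝ := {y | ∀ r : ℚ, y + r ∉ B}
  have hN : MeasurableSet N := by
    have : N = ⋂ r : ℚ, (fun y : ℝ => y + r) ⁻¹' Bᶜ := by
      ext y
      simp [N]
    rw [this]
    exact MeasurableSet.iInter fun r => (by fun_prop : Measurable fun y : ℝ => y + r) hB.compl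
  rw [ae_iff]
  have hN' : {a : ℝ | ¬ ∃ r : ℚ, a + r ∈ B} = N := by
    ext y
    simp [N]
  rw [hN']
  by_contra hN0
  -- Fubini
  let P : Set (ℝ × ℝ) := {p | p.1 ∈ N ∧ p.1 + p.2 ∈ B}
  have hP : MeasurableSet P :=
    (measurable_fst hN).inter ((by fun_prop : Measurable fun p : ℝ × ℝ => p.1 + p.2) hB)
  have h1 : (volume.prod volume : Measure (ℝ × ℝ)) P ≠ 0 := by
    intro h
    rw [Measure.measure_prod_null hP] at h
    apply hN0
    refine measure_mono_null ?_ (ae_iff.1 h)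
    intro x hx h2
    have h3 : Prod.mk x ⁻¹' P = (fun s => x + s) ⁻¹' B := by
      ext s
      simp only [P, mem_preimage, mem_ofPred_eq]
      exact ⟨fun h => h.2, fun h => ⟨hx, h⟩⟩
    have h4 : volume ((fun s => x + s) ⁻¹' B) = 0 := by
      rw [← h3]
      exact h2
    rw [measure_preimage_add] at h4
    exact hB0 h4
  have h2 : ∃ s : ℝ, volume ((fun x => (x, s)) ⁻¹' P) ≠ 0 := by
    by_contra h
    push Not at h
    apply h1
    rw [Measure.prod_apply_symm hP]
    simp [h]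
  obtain ⟨s, hs⟩ := h2
  have hM : MeasurableSet ((fun x => (x, s)) ⁻¹' P) :=
    (by fun_prop : Measurable fun x : ℝ => (x, s)) hP
  have h3 := Measure.sub_mem_nhds_zero_of_addHaar_pos volume ((fun x => (x, s)) ⁻¹' P) hM
    (pos_iff_ne_zero.2 hs)
  have h4 : (fun r : ℝ => r - s) ⁻¹' ((fun x => (x, s)) ⁻¹' P - (fun x => (x, s)) ⁻¹' P) ∈ 𝓝 s := by
    apply ContinuousAt.preimage_mem_nhds (by fun_prop)
    simpa using h3
  obtain ⟨r, hr⟩ := (Rat.denseRange_cast (𝕜 := ℝ)).exists_mem_open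
    isOpen_interior ⟨s, mem_interior_iff_mem_nhds.2 h4⟩
  have h6 := interior_subset hr
  rw [mem_preimage] at h6
  obtain ⟨m1, hm1, m2, hm2, h⟩ := Set.mem_sub.1 h6
  apply hm2.1 r
  have h5 : m2 + (r : ℝ) = m1 + s := by
    linarith
  rw [h5]
  exact hm1.2

/-- Every finite Borel measure on the line admits a family of countable sets, indexed by the real
numbers, such that every set of positive measure meets almost all of them. -/
theorem exists_hit (ν : Measure ℝ) [IsFiniteMeasure ν] :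
    ∃ T : ℝ → Set ℝ, (∀ y, (T y).Countable) ∧
      ∀ E, MeasurableSet E → ν E ≠ 0 → ∀ᵐ y : ℝ, (T y ∩ E).Nonempty := by
  by_cases h0 : ν univ = 0
  · refine ⟨fun _ => ∅, fun _ => countable_empty, fun E _ hE0 => absurd ?_ hE0⟩
    exact measure_mono_null (subset_univ E) h0
  have : NeZero ν := ⟨fun h => h0 (by rw [h]; rfl)⟩
  obtain ⟨q, hq, hqν⟩ := Measure.exists_measurable_map_eq ((ν univ)⁻¹ • ν)
  refine ⟨fun y => {x | ∃ r : ℚ, ∃ h : y + r ∈ Icc (0 : ℝ) 1, x = q ⟨y + r, h⟩}, fun y => ?_,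
    fun E hE hE0 => ?_⟩
  · have : {x | ∃ r : ℚ, ∃ h : y + r ∈ Icc (0 : ℝ) 1, x = q ⟨y + r, h⟩} =
        ⋃ r : ℚ, {x | ∃ h : y + r ∈ Icc (0 : ℝ) 1, x = q ⟨y + r, h⟩} := by
      ext x
      simp
    simp only [this]
    refine countable_iUnion fun r => Set.Subsingleton.countable ?_
    rintro x ⟨h, rfl⟩ x' ⟨h', rfl⟩
    rfl
  · have h1 : volume (q ⁻¹' E) ≠ 0 := by
      rw [← Measure.map_apply hq hE, hqν]
      simp only [Measure.smul_apply, smul_eq_mul, ne_eq, mul_eq_zero, ENNReal.inv_eq_zero, not_or]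
      exact ⟨measure_ne_top _ _, hE0⟩
    have h2 : volume ((Subtype.val : unitInterval → ℝ) '' (q ⁻¹' E)) ≠ 0 := by
      rwa [← unitInterval.volume_apply]
    have h3 : MeasurableSet ((Subtype.val : unitInterval → ℝ) '' (q ⁻¹' E)) :=
      (MeasurableEmbedding.subtype_coe measurableSet_Icc).measurableSet_image.2 (hq hE)
    filter_upwards [ae_exists_rat h3 h2] with y hy
    obtain ⟨r, ⟨u, hu, hur⟩⟩ := hy
    refine ⟨q u, ⟨r, ?_, ?_⟩, hu⟩
    · rw [← hur]
      exact u.2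
    · congr 1
      exact Subtype.ext hur

end Pool.Agent.P9.Fib
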