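import Pool.Agent.P9.Fib.Density

/-!
# Density points in the compact space
-/

namespace Pool.Agent.P9.Fib

open MeasureTheory Set Filter Topology
open scoped ENNReal

theorem exists_point {K : Type*} [TopologicalSpace K] [CompactSpace K] [MeasurableSpace K]
    {μ : Measure K} [IsFiniteMeasure μ] {f : K → ℝ} (hf : Measurable f) {t : ℝ}
    (ht : Dens (μ.map f) t univ) :
    ∃ p : K, ∀ C : Set K, IsClosed C → ∀ E : Set ℝ, MeasurableSet E → Dens (μ.map f) t E →
      μ (f ⁻¹' E \ C) = 0 → p ∈ C := by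
  let S : Set (Set K) := {C | IsClosed C ∧ ∃ E : Set ℝ, MeasurableSet E ∧
    Dens (μ.map f) t E ∧ μ (f ⁻¹' E \ C) = 0}
  have hS : univ ∈ S := ⟨isClosed_univ, univ, MeasurableSet.univ, ht, by simp⟩
  have : Nonempty S := ⟨⟨univ, hS⟩⟩
  have h1 : (⋂₀ S).Nonempty := by
    apply IsCompact.nonempty_sInter_of_directed_nonempty_isCompact_isClosed
    · rintro C ⟨hC, E, hE, hEt, hE0⟩ C' ⟨hC', E', hE', hEt', hE0'⟩
      refine ⟨C ∩ C', ⟨hC.inter hC', E ∩ E', hE.inter hE', hEt.inter hEt', ?_⟩,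
        inter_subset_left, inter_subset_right⟩
      refine measure_mono_null ?_ (measure_union_null hE0 hE0')
      intro x hx
      by_cases hxC : x ∈ C
      · right
        exact ⟨hx.1.2, fun h => hx.2 ⟨hxC, h⟩⟩
      · left
        exact ⟨hx.1.1, hxC⟩
    · rintro C ⟨hC, E, hE, hEt, hE0⟩
      by_contra hemp
      rw [not_nonempty_iff_eq_empty] at hemp
      rw [hemp, sdiff_empty] at hE0
      have h2 := hEt.pos 0
      apply h2
      rw [Measure.map_apply hf ((measurableSet_bl t 0).inter hE)]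
      exact measure_mono_null (fun x hx => hx.2) hE0
    · exact fun C hC => hC.1.isCompact
    · exact fun C hC => hC.1
  obtain ⟨p, hp⟩ := h1
  exact ⟨p, fun C hC E hE hEt hE0 => hp C ⟨hC, E, hE, hEt, hE0⟩⟩

end Pool.Agent.P9.Fib
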