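import Pool.Agent.P9.Fib.Select
import Pool.Agent.P9.Fib.Exhaust
import Pool.Agent.P9.Fib.Hit
import Pool.Agent.P9.Fib.Decode
import Pool.Agent.P9.Fib.Point

/-!
# The key argument
-/

namespace Pool.Agent.P9.Fib

open MeasureTheory Set Filter Topology Metric
open scoped ENNReal

variable {K : Type*} [TopologicalSpace K] [CompactSpace K] [T2Space K] [MeasurableSpace K]
  [BorelSpace K] {μ : Measure K} [IsFiniteMeasure μ] [μ.WeaklyRegular] {f : K → ℝ}

/-- An open set of positive measure that misses a set contains the support of a bump function. -/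
theorem exists_bump {U : Set K} (hU : IsOpen U) (hU0 : μ U ≠ 0) :
    ∃ g : C(K, ℝ), (∀ x ∉ U, g x = 0) ∧ μ {x | 1 / 2 < g x} ≠ 0 := by
  obtain ⟨F, hFU, hF, hUF⟩ := hU.measurableSet.exists_isClosed_sdiff_lt (measure_ne_top μ U) hU0
  obtain ⟨g, hg0, hg1, -⟩ := exists_continuous_zero_one_of_isClosed (s := Uᶜ) (t := F)
    hU.isClosed_compl hF (disjoint_left.2 fun x hx hx' => hx (hFU hx'))
  refine ⟨g, fun x hx => hg0 hx, fun h0 => ?_⟩
  have h1 : μ F = 0 := by
    refine measure_mono_null ?_ h0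
    intro x hx
    have := hg1 hx
    simp only [mem_ofPred_eq]
    rw [this]
    norm_num
  have h2 : μ U ≤ μ (U \ F) := by
    calc μ U ≤ μ ((U \ F) ∪ F) := measure_mono (by
          intro x hx
          by_cases h : x ∈ F
          · exact Or.inr h
          · exact Or.inl ⟨hx, h⟩)
      _ ≤ μ (U \ F) + μ F := measure_union_le _ _
      _ = μ (U \ F) := by rw [h1, add_zero]
  exact absurd hUF (not_lt.2 h2)

/-- The closed sets given by a sequence of functions and a list of signs. -/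
def cl (g : ℕ → C(K, ℝ)) : List Bool → Set K
  | [] => univ
  | b :: s => cl g s ∩ (if b then {x | 1 / 2 ≤ g s.length x} else {x | g s.length x ≤ 1 / 4})

theorem isClosed_cl (g : ℕ → C(K, ℝ)) (s : List Bool) : IsClosed (cl g s) := by
  induction s with
  | nil => exact isClosed_univ
  | cons b s ih =>
    refine ih.inter ?_
    split_ifs
    · exact isClosed_le continuous_const (g s.length).continuous
    · exact isClosed_le (g s.length).continuous continuous_const

theorem iInter_bl (t : ℝ) : ⋂ j, bl t j = {t} := by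
  ext x
  simp only [mem_iInter, mem_singleton_iff]
  constructor
  · intro h
    rw [← dist_eq_zero]
    refine le_antisymm (le_of_forall_pos_le_add fun ε hε => ?_) dist_nonneg
    obtain ⟨n, hn⟩ := exists_nat_one_div_lt hε
    rw [zero_add]
    exact le_trans (h n) hn.le
  · rintro rfl j
    refine mem_closedBall_self ?_
    positivity

/-- The graph of `a` is not null for some Borel probability measure whose first marginal is
absolutely continuous. -/
def GraphNonNull (a : ℝ → ℝ) : Prop :=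
  ∃ m : Measure (ℝ × ℝ), IsProbabilityMeasure m ∧ m.map Prod.fst ≪ volume ∧
    m {q | q.2 = a q.1} ≠ 0

theorem key (hA : ∀ a : ℝ → ℝ, GraphNonNull a) (hf : Continuous f) (hsc : ScatteredFibres f)
    (hdir : IsDirac f μ) :
    ∃ S : Set K, S.Countable ∧ ∀ U : Set K, IsOpen U → μ U ≠ 0 → (U ∩ S).Nonempty := by
  by_contra hcon
  have hcon' : ∀ S : Set K, S.Countable → ∃ U : Set K, IsOpen U ∧ μ U ≠ 0 ∧ ¬ (U ∩ S).Nonempty := by
    intro S hS
    by_contra h
    push Not at h
    exact hcon ⟨S, hS, h⟩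
  have hfm : Measurable f := hf.measurable
  -- `K` is not empty
  have hK : Nonempty K := by
    obtain ⟨U, -, hU0, -⟩ := hcon' ∅ countable_empty
    exact (nonempty_of_measure_ne_zero hU0).to_subtype.map Subtype.val
  let ν : Measure ℝ := μ.map f
  obtain ⟨T, hTc, hT⟩ := exists_hit ν
  obtain ⟨S1, S0, hS1, hS0, hS⟩ := exists_decode ν
  -- points
  have hp : ∀ t : ℝ, ∃ p : K, ∀ C : Set K, IsClosed C → ∀ E : Set ℝ, MeasurableSet E →
      Dens ν t E → μ (f ⁻¹' E \ C) = 0 → p ∈ C := by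
    intro t
    by_cases ht : Dens ν t univ
    · exact exists_point hfm ht
    · exact ⟨hK.some, fun C _ E _ hE _ => absurd (hE.mono (subset_univ E)) ht⟩
  choose p hp using hp
  -- functions
  have hg : ∀ y : ℝ, ∃ g : C(K, ℝ), (∀ t ∈ T y, g (p t) = 0) ∧ μ {x | 1 / 2 < g x} ≠ 0 := by
    intro y
    obtain ⟨U, hU, hU0, hUS⟩ := hcon' (p '' T y) ((hTc y).image p)
    obtain ⟨g, hg0, hg1⟩ := exists_bump hU hU0
    refine ⟨g, fun t ht => hg0 _ fun h => hUS ⟨p t, h, mem_image_of_mem p ht⟩, hg1⟩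
  choose g hg0 hg1 using hg
  -- codes
  have ha : ∀ y : ℝ, ∃ x : ℝ, f ⁻¹' (sec S1 x) =ᵐ[μ] {x | 1 / 2 < g y x} ∧
      f ⁻¹' (sec S0 x) =ᵐ[μ] {x | g y x < 1 / 4} := by
    intro y
    obtain ⟨E1, hE1, h1⟩ := hdir {x | 1 / 2 < g y x}
      (isOpen_lt continuous_const (g y).continuous)
    obtain ⟨E0, hE0, h0⟩ := hdir {x | g y x < 1 / 4}
      (isOpen_lt (g y).continuous continuous_const)
    obtain ⟨x, hx1, hx0⟩ := hS E1 E0 hE1 hE0
    exact ⟨x, (ae_eq_comp hfm.aemeasurable hx1).trans h1.symm,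
      (ae_eq_comp hfm.aemeasurable hx0).trans h0.symm⟩
  choose a ha1 ha0 using ha
  obtain ⟨m, hm, hmac, hmR⟩ := hA a
  let R : Set (ℝ × ℝ) := {q | q.2 = a q.1}
  let m' : Measure (ℝ × ℝ) := m.restrict (toMeasurable m R)
  have hthick : ∀ B, MeasurableSet B → m' B ≠ 0 → (B ∩ R).Nonempty := by
    intro B hB hB0
    have h1 : m' B = m (R ∩ B) := by
      rw [Measure.restrict_apply hB, inter_comm, Measure.measure_toMeasurable_inter hB
        (measure_ne_top _ _)]
    rw [h1, inter_comm] at hB0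
    exact nonempty_of_measure_ne_zero hB0
  have hm' : m' univ ≠ 0 := by
    rw [Measure.restrict_apply_univ, measure_toMeasurable]
    exact hmR
  let W : Set ((ℝ × ℝ) × ℝ) := {q | (q.1.2, q.2) ∈ S1}
  let W0 : Set ((ℝ × ℝ) × ℝ) := {q | (q.1.2, q.2) ∈ S0}
  have hW : MeasurableSet W :=
    (by fun_prop : Measurable fun q : (ℝ × ℝ) × ℝ => (q.1.2, q.2)) hS1
  have hW0 : MeasurableSet W0 :=
    (by fun_prop : Measurable fun q : (ℝ × ℝ) × ℝ => (q.1.2, q.2)) hS0
  have hsec1 : ∀ z ∈ R, f ⁻¹' (sec W z) =ᵐ[μ] {x | 1 / 2 < g z.1 x} := by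
    intro z hz
    have : sec W z = sec S1 (a z.1) := by
      ext t
      simp only [sec, W, mem_ofPred_eq]
      rw [show z.2 = a z.1 from hz]
    rw [this]
    exact ha1 z.1
  have hsec0 : ∀ z ∈ R, f ⁻¹' (sec W0 z) =ᵐ[μ] {x | g z.1 x < 1 / 4} := by
    intro z hz
    have : sec W0 z = sec S0 (a z.1) := by
      ext t
      simp only [sec, W0, mem_ofPred_eq]
      rw [show z.2 = a z.1 from hz]
    rw [this]
    exact ha0 z.1
  have hα : ∀ z ∈ R, ν (sec W z) ≠ 0 := by
    intro z hz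
    rw [Measure.map_apply hfm (measurableSet_sec hW z), measure_congr (hsec1 z hz)]
    exact hg1 z.1
  have hβ : ∀ E, MeasurableSet E → ν E ≠ 0 → ∀ᵐ z ∂m', ν (E ∩ sec W0 z) ≠ 0 := by
    intro E hE hE0
    -- a set of density points
    obtain ⟨N, hN1, hN2, hN3⟩ := exists_measurable_superset_of_null (ae_iff.1 (ae_dens ν hE))
    have hE' : MeasurableSet (E \ N) := hE.diff hN2
    have hE'0 : ν (E \ N) ≠ 0 := by rwa [measure_sdiff_null hN3]
    have hE'd : ∀ t ∈ E \ N, Dens ν t E := by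
      intro t ht
      by_contra h
      exact ht.2 (hN1 fun h' => h (h' ht.1))
    have h1 := hT _ hE' hE'0
    have h2 : ∀ᵐ z ∂m, (T z.1 ∩ (E \ N)).Nonempty :=
      ae_of_ae_map measurable_fst.aemeasurable (hmac.ae_le h1)
    obtain ⟨N', hN'1, hN'2, hN'3⟩ := exists_measurable_superset_of_null (ae_iff.1 h2)
    rw [ae_iff]
    have h3 : MeasurableSet {z : ℝ × ℝ | ν (E ∩ sec W0 z) = 0} := by
      have h4 : MeasurableSet (Prod.snd ⁻¹' E ∩ W0) := (measurable_snd hE).inter hW0
      exact (measurable_measure_prodMk_left h4) (measurableSet_singleton (0 : ℝ≥0∞))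
    have h4 : {z : ℝ × ℝ | ¬ ν (E ∩ sec W0 z) ≠ 0} = {z : ℝ × ℝ | ν (E ∩ sec W0 z) = 0} := by
      ext z
      simp
    rw [h4]
    by_contra h5
    have hN'm' : m' N' = 0 := by
      have := Measure.restrict_le_self (μ := m) (s := toMeasurable m R) N'
      rw [hN'3] at this
      exact le_antisymm this zero_le
    have h6 : m' ({z : ℝ × ℝ | ν (E ∩ sec W0 z) = 0} \ N') ≠ 0 := by
      rwa [measure_sdiff_null hN'm']
    obtain ⟨z, ⟨hz1, hz2⟩, hzR⟩ := hthick _ (h3.diff hN'2) h6
    have h7 : (T z.1 ∩ (E \ N)).Nonempty := by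
      by_contra h
      exact hz2 (hN'1 h)
    obtain ⟨t, htT, htE⟩ := h7
    have h8 : p t ∈ {x | 1 / 4 ≤ g z.1 x} := by
      apply hp t _ (isClosed_le continuous_const (g z.1).continuous) E hE (hE'd t htE)
      have h9 : f ⁻¹' E \ {x | 1 / 4 ≤ g z.1 x} = f ⁻¹' E ∩ {x | g z.1 x < 1 / 4} := by
        ext x
        simp
      rw [h9]
      have h10 : (f ⁻¹' E ∩ {x | g z.1 x < 1 / 4} : Set K) =ᵐ[μ] f ⁻¹' (E ∩ sec W0 z) := by
        rw [preimage_inter]
        exact ae_eq_set_inter (ae_eq_refl _) (hsec0 z hzR).symm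
      rw [measure_congr h10, ← Measure.map_apply hfm (hE.inter (measurableSet_sec hW0 z))]
      exact hz1
    have h9 := hg0 z.1 t htT
    simp only [mem_ofPred_eq] at h8
    rw [h9] at h8
    norm_num at h8
  obtain ⟨t, z, hzR, hz⟩ := exists_pattern hthick hm' hW hW0 hα hβ
  -- the tree of closed sets
  have hae : ∀ s, ∀ᵐ x ∂μ, f x ∈ pat W W0 z s → x ∈ cl (fun n => g (z n).1) s := by
    intro s
    induction s with
    | nil => exact Eventually.of_forall fun x _ => mem_univ x
    | cons b s ih =>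
      filter_upwards [ih, (hsec1 _ (hzR s.length)).mem_iff, (hsec0 _ (hzR s.length)).mem_iff]
        with x hx1 hx2 hx3 hx
      refine ⟨hx1 hx.1, ?_⟩
      cases b
      · exact le_of_lt (hx3.1 hx.2)
      · exact le_of_lt (hx2.1 hx.2)
  have hne : ∀ s, (f ⁻¹' {t} ∩ cl (fun n => g (z n).1) s).Nonempty := by
    intro s
    have h1 : ∀ j, (f ⁻¹' (bl t j) ∩ cl (fun n => g (z n).1) s).Nonempty := by
      intro j
      have h2 := hz s j
      rw [Measure.map_apply hfm ((measurableSet_bl t j).inter (measurableSet_pat hW hW0 z s))] at h2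
      by_contra hemp
      apply h2
      refine measure_mono_null ?_ (ae_iff.1 (hae s))
      intro x hx hx'
      exact hemp ⟨x, hx.1, hx' hx.2⟩
    have h2 := IsCompact.nonempty_iInter_of_sequence_nonempty_isCompact_isClosed
      (fun j => f ⁻¹' (bl t j) ∩ cl (fun n => g (z n).1) s)
      (fun j => inter_subset_inter_left _ (preimage_mono (bl_anti t (Nat.le_succ j)))) h1
      ((isClosed_closedBall.preimage hf).inter (isClosed_cl _ s)).isCompact
      (fun j => (isClosed_closedBall.preimage hf).inter (isClosed_cl _ s))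
    obtain ⟨x, hx⟩ := h2
    rw [mem_iInter] at hx
    refine ⟨x, ?_, (hx 0).2⟩
    have h3 : f x ∈ ⋂ j, bl t j := mem_iInter.2 fun j => (hx j).1
    rw [iInter_bl] at h3
    exact h3
  obtain ⟨A, hAt, hAne, hA'⟩ := exists_no_isolated (C := f ⁻¹' {t})
    (isClosed_singleton.preimage hf) (isClosed_cl _) (fun b s => inter_subset_left) (fun s => by
      rw [disjoint_left]
      intro x hx hx'
      have h1 : (1 : ℝ) / 2 ≤ g (z s.length).1 x := hx.2
      have h2 : g (z s.length).1 x ≤ (1 : ℝ) / 4 := hx'.2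
      linarith) hne
  obtain ⟨x, hx, U, hU, hUA⟩ := hsc t A hAt hAne
  exact hA' x hx U hU hUA

end Pool.Agent.P9.Fib
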