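import Mathlib

/-!
# Independent patterns at a point

`W` and `W0` are measurable subsets of `Z × ℝ`, with sections `W_z`, `W0_z`; `R` is a thick subset
of `Z`.  We find a point `t` and a sequence `z_n` in `R` such that all finite intersections of
the sets `W_{z_n}`, `W0_{z_n}` have positive measure in every neighbourhood of `t`.
-/

namespace Pool.Agent.P9.Fib

open MeasureTheory Set Metric Filter Topology
open scoped ENNReal

/-- The closed ball of radius `1 / (j + 1)`. -/
def bl (t : ℝ) (j : ℕ) : Set ℝ := closedBall t (1 / ((j : ℝ) + 1))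

theorem measurableSet_bl (t : ℝ) (j : ℕ) : MeasurableSet (bl t j) :=
  isClosed_closedBall.measurableSet

theorem bl_anti (t : ℝ) {i j : ℕ} (h : i ≤ j) : bl t j ⊆ bl t i := by
  apply closedBall_subset_closedBall
  have : (i : ℝ) ≤ j := by exact_mod_cast h
  gcongr

/-- The set `k` has positive measure in every neighbourhood of `t`. -/
def Pos (ν : Measure ℝ) (t : ℝ) (k : Set ℝ) : Prop := ∀ j : ℕ, ν (bl t j ∩ k) ≠ 0

section G

variable {Z : Type} [MeasurableSpace Z]

/-- The section at `z`. -/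
def sec (W : Set (Z × ℝ)) (z : Z) : Set ℝ := {s | (z, s) ∈ W}

theorem measurableSet_sec {W : Set (Z × ℝ)} (hW : MeasurableSet W) (z : Z) :
    MeasurableSet (sec W z) := measurable_prodMk_left hW

/-- The set `k` and its intersections with the sets `W_z`, for almost all `z` with `t ∈ W_z`
(`n` times iterated), have positive measure near `t`. -/
def G (m : Measure Z) (ν : Measure ℝ) (W : Set (Z × ℝ)) (t : ℝ) : ℕ → Set ℝ → Prop
  | 0, k => Pos ν t k
  | n + 1, k => G m ν W t n k ∧ ∀ᵐ z ∂m, (z, t) ∈ W → G m ν W t n (k ∩ sec W z)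

variable {m : Measure Z} {ν : Measure ℝ} {W : Set (Z × ℝ)} {t : ℝ}

theorem measurableSet_G [SFinite m] [SFinite ν] (hW : MeasurableSet W) (n : ℕ) :
    ∀ {S : Type} [MeasurableSpace S] {k : Set (S × ℝ)}, MeasurableSet k →
      MeasurableSet {s | G m ν W t n (Prod.mk s ⁻¹' k)} := by
  induction n with
  | zero =>
    intro S _ k hk
    have : {s | G m ν W t 0 (Prod.mk s ⁻¹' k)} =
        ⋂ j : ℕ, {s | ν (Prod.mk s ⁻¹' (Prod.snd ⁻¹' bl t j ∩ k)) ≠ 0} := by
      ext s
      simp only [G, Pos, mem_ofPred_eq, mem_iInter]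
      exact Iff.rfl
    rw [this]
    refine MeasurableSet.iInter fun j => ?_
    have h1 : MeasurableSet (Prod.snd ⁻¹' bl t j ∩ k) :=
      (measurable_snd (measurableSet_bl t j)).inter hk
    exact (measurable_measure_prodMk_left h1) (measurableSet_singleton (0 : ℝ≥0∞)).compl
  | succ n ih =>
    intro S _ k hk
    have h1 : MeasurableSet {q : (S × Z) × ℝ | (q.1.1, q.2) ∈ k ∧ (q.1.2, q.2) ∈ W} := by
      apply MeasurableSet.inter
      · exact (by fun_prop : Measurable fun q : (S × Z) × ℝ => (q.1.1, q.2)) hk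
      · exact (by fun_prop : Measurable fun q : (S × Z) × ℝ => (q.1.2, q.2)) hW
    have h2 := ih h1
    have h3 : MeasurableSet ({q : S × Z | (q.2, t) ∈ W} \ {s | G m ν W t n (Prod.mk s ⁻¹'
        {q : (S × Z) × ℝ | (q.1.1, q.2) ∈ k ∧ (q.1.2, q.2) ∈ W})}) := by
      refine MeasurableSet.diff ?_ h2
      exact (by fun_prop : Measurable fun q : S × Z => (q.2, t)) hW
    have h4 := measurable_measure_prodMk_left (ν := m) h3
    have h5 := h4 (measurableSet_singleton (0 : ℝ≥0∞))
    have : {s | G m ν W t (n + 1) (Prod.mk s ⁻¹' k)} =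
        {s | G m ν W t n (Prod.mk s ⁻¹' k)} ∩ ((fun x => m (Prod.mk x ⁻¹'
          ({q : S × Z | (q.2, t) ∈ W} \ {s | G m ν W t n (Prod.mk s ⁻¹'
          {q : (S × Z) × ℝ | (q.1.1, q.2) ∈ k ∧ (q.1.2, q.2) ∈ W})}))) ⁻¹' {0}) := by
      ext s
      simp only [G, mem_ofPred_eq, mem_inter_iff, mem_preimage, mem_singleton_iff]
      refine and_congr Iff.rfl ?_
      rw [ae_iff]
      have : {z | ¬((z, t) ∈ W → G m ν W t n (Prod.mk s ⁻¹' k ∩ sec W z))} =
          Prod.mk s ⁻¹' ({q : S × Z | (q.2, t) ∈ W} \ {s | G m ν W t n (Prod.mk s ⁻¹'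
          {q : (S × Z) × ℝ | (q.1.1, q.2) ∈ k ∧ (q.1.2, q.2) ∈ W})}) := by
        ext z
        simp only [mem_ofPred_eq, Classical.not_imp, mem_preimage, Set.mem_sdiff]
        exact Iff.rfl
      rw [this]
    rw [this]
    exact (ih hk).inter h5

theorem G_zero_ext [SFinite m] [SFinite ν] (hW : MeasurableSet W) {W0 : Set (Z × ℝ)}
    (hW0 : MeasurableSet W0)
    (hβ : ∀ E, MeasurableSet E → ν E ≠ 0 → ∀ᵐ z ∂m, ν (E ∩ sec W0 z) ≠ 0) (n : ℕ) :
    ∀ k, MeasurableSet k → G m ν W t n k → ∀ᵐ z ∂m, G m ν W t n (k ∩ sec W0 z) := by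
  induction n with
  | zero =>
    intro k hk h
    simp only [G, Pos] at h ⊢
    rw [ae_all_iff]
    intro j
    have := hβ _ ((measurableSet_bl t j).inter hk) (h j)
    filter_upwards [this] with z hz
    rwa [inter_assoc] at hz
  | succ n ih =>
    intro k hk h
    obtain ⟨h1, h2⟩ := h
    have h3 := ih k hk h1
    have h4 : ∀ᵐ z' ∂m, ∀ᵐ z ∂m, (z', t) ∈ W → G m ν W t n (k ∩ sec W z' ∩ sec W0 z) := by
      filter_upwards [h2] with z' hz'
      by_cases hz : (z', t) ∈ W
      · filter_upwards [ih _ (hk.inter (measurableSet_sec hW z')) (hz' hz)] with z hz0 _ using hz0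
      · exact Eventually.of_forall fun z h => absurd h hz
    rw [Measure.ae_ae_comm] at h4
    · filter_upwards [h3, h4] with z hz3 hz4
      refine ⟨hz3, ?_⟩
      filter_upwards [hz4] with z' hz' hzW
      have := hz' hzW
      rwa [inter_right_comm] at this
    · have h5 : MeasurableSet {q : (Z × Z) × ℝ |
          (q.2 ∈ k ∧ (q.1.1, q.2) ∈ W) ∧ (q.1.2, q.2) ∈ W0} := by
        apply MeasurableSet.inter (MeasurableSet.inter _ _)
        · exact (by fun_prop : Measurable fun q : (Z × Z) × ℝ => (q.1.2, q.2)) hW0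
        · exact measurable_snd hk
        · exact (by fun_prop : Measurable fun q : (Z × Z) × ℝ => (q.1.1, q.2)) hW
      have h6 := measurableSet_G (m := m) (ν := ν) (t := t) hW n h5
      have h7 : MeasurableSet {q : Z × Z | (q.1, t) ∈ W} :=
        (by fun_prop : Measurable fun q : Z × Z => (q.1, t)) hW
      have : {x : Z × Z | (x.1, t) ∈ W → G m ν W t n (k ∩ sec W x.1 ∩ sec W0 x.2)} =
          {q : Z × Z | (q.1, t) ∈ W}ᶜ ∪ {s | G m ν W t n (Prod.mk s ⁻¹' {q : (Z × Z) × ℝ |
          (q.2 ∈ k ∧ (q.1.1, q.2) ∈ W) ∧ (q.1.2, q.2) ∈ W0})} := by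
        ext x
        simp only [mem_ofPred_eq, mem_union, mem_compl_iff]
        rw [imp_iff_not_or]
        exact Iff.rfl
      rw [this]
      exact h7.compl.union h6

end G

end Pool.Agent.P9.Fib
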