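import Pool.Agent.P9.Fib.Density

/-!
# Selection of an independent sequence
-/

namespace Pool.Agent.P9.Fib

open MeasureTheory Set Metric Filter Topology
open scoped ENNReal

variable {Z : Type} [MeasurableSpace Z]

/-- Finite intersections of sections along a list of points and a list of signs. -/
def pl (W W0 : Set (Z × ℝ)) : List Z → List Bool → Set ℝ
  | [], _ => univ
  | _ :: _, [] => univ
  | z :: zs, b :: s => pl W W0 zs s ∩ (if b then sec W z else sec W0 z)

/-- Finite intersections of sections along a sequence of points and a list of signs. -/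
def pat (W W0 : Set (Z × ℝ)) (z : ℕ → Z) : List Bool → Set ℝ
  | [] => univ
  | b :: s => pat W W0 z s ∩ (if b then sec W (z s.length) else sec W0 (z s.length))

theorem measurableSet_pl {W W0 : Set (Z × ℝ)} (hW : MeasurableSet W) (hW0 : MeasurableSet W0)
    (zs : List Z) : ∀ s, MeasurableSet (pl W W0 zs s) := by
  induction zs with
  | nil => intro s; exact MeasurableSet.univ
  | cons z zs ih =>
    intro s
    cases s with
    | nil => exact MeasurableSet.univ
    | cons b s =>
      refine (ih s).inter ?_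
      split_ifs
      · exact measurableSet_sec hW z
      · exact measurableSet_sec hW0 z

theorem measurableSet_pat {W W0 : Set (Z × ℝ)} (hW : MeasurableSet W) (hW0 : MeasurableSet W0)
    (z : ℕ → Z) (s : List Bool) : MeasurableSet (pat W W0 z s) := by
  induction s with
  | nil => exact MeasurableSet.univ
  | cons b s ih =>
    refine ih.inter ?_
    split_ifs
    · exact measurableSet_sec hW _
    · exact measurableSet_sec hW0 _

theorem exists_pattern {m : Measure Z} [IsFiniteMeasure m] {ν : Measure ℝ} [IsFiniteMeasure ν]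
    {R : Set Z} (hR : ∀ B, MeasurableSet B → m B ≠ 0 → (B ∩ R).Nonempty) (hm : m univ ≠ 0)
    {W W0 : Set (Z × ℝ)} (hW : MeasurableSet W) (hW0 : MeasurableSet W0)
    (hα : ∀ z ∈ R, ν (sec W z) ≠ 0)
    (hβ : ∀ E, MeasurableSet E → ν E ≠ 0 → ∀ᵐ z ∂m, ν (E ∩ sec W0 z) ≠ 0) :
    ∃ t, ∃ z : ℕ → Z, (∀ n, z n ∈ R) ∧ ∀ s : List Bool, Pos ν t (pat W W0 z s) := by
  -- the set of `z` with null section is null
  have h1 : MeasurableSet {z | ν (sec W z) = 0} :=
    (measurable_measure_prodMk_left hW) (measurableSet_singleton (0 : ℝ≥0∞))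
  have h2 : m {z | ν (sec W z) = 0} = 0 := by
    by_contra h
    obtain ⟨z, hz, hzR⟩ := hR _ h1 h
    exact hα z hzR hz
  have h3 : m.prod ν W ≠ 0 := by
    intro h
    rw [Measure.measure_prod_null hW] at h
    apply hm
    have h4 : ∀ᵐ z ∂m, ν (sec W z) ≠ 0 := by
      rw [ae_iff]
      simpa using h2
    have h5 : ∀ᵐ z ∂m, False := by
      filter_upwards [h, h4] with z hz hz' using hz' hz
    rw [ae_iff] at h5
    simpa using h5
  have h4 : ∃ᶠ t in ae ν, m {z | (z, t) ∈ W} ≠ 0 := by
    intro h
    apply h3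
    rw [Measure.prod_apply_symm hW]
    rw [lintegral_eq_zero_iff (measurable_measure_prodMk_right hW)]
    filter_upwards [h] with t ht
    exact not_not.1 ht
  obtain ⟨t, ht1, ht2, ht3⟩ := (h4.and_eventually ((ae_ae_dens (m := m) hW).and
    (ae_dens ν MeasurableSet.univ))).exists
  have ht4 : Dens ν t univ := ht3 (mem_univ _)
  have hG : ∀ n, G m ν W t n univ := fun n => G_of_dens ht2 n univ ht4
  -- the step
  have step : ∀ zs : List Z, (∀ s n, G m ν W t n (pl W W0 zs s)) →
      ∃ z ∈ R, ∀ s n, G m ν W t n (pl W W0 (z :: zs) s) := by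
    intro zs h
    have h5 : ∀ᵐ z ∂m, (z, t) ∈ W → ∀ s n, G m ν W t n (pl W W0 (z :: zs) s) := by
      have h6 : ∀ᵐ z ∂m, ∀ s : List Bool, ∀ n : ℕ, G m ν W t n (pl W W0 zs s ∩ sec W0 z) := by
        rw [ae_all_iff]
        intro s
        rw [ae_all_iff]
        intro n
        exact G_zero_ext hW hW0 hβ n _ (measurableSet_pl hW hW0 zs s) (h s n)
      have h7 : ∀ᵐ z ∂m, ∀ s : List Bool, ∀ n : ℕ, (z, t) ∈ W →
          G m ν W t n (pl W W0 zs s ∩ sec W z) := by
        rw [ae_all_iff]
        intro s
        rw [ae_all_iff]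
        intro n
        exact (h s (n + 1)).2
      filter_upwards [h6, h7] with z hz6 hz7 hzW s n
      cases s with
      | nil => exact hG n
      | cons b s =>
        cases b
        · exact hz6 s n
        · exact hz7 s n hzW
    obtain ⟨N, hN1, hN2, hN3⟩ := exists_measurable_superset_of_null (ae_iff.1 h5)
    have h6 : MeasurableSet ({z | (z, t) ∈ W} \ N) :=
      ((by fun_prop : Measurable fun z : Z => (z, t)) hW).diff hN2
    have h7 : m ({z | (z, t) ∈ W} \ N) ≠ 0 := by
      rwa [measure_sdiff_null hN3]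
    obtain ⟨z, hz, hzR⟩ := hR _ h6 h7
    refine ⟨z, hzR, ?_⟩
    by_contra hcon
    exact hz.2 (hN1 (fun h => hcon (h hz.1)))
  choose f hf1 hf2 using step
  let T := {zs : List Z // ∀ s n, G m ν W t n (pl W W0 zs s)}
  let g : T → T := fun p => ⟨f p.1 p.2 :: p.1, hf2 p.1 p.2⟩
  let u : ℕ → T := fun n => g^[n] ⟨[], fun s n => hG n⟩
  have hu : ∀ n, (u (n + 1)).1 = f (u n).1 (u n).2 :: (u n).1 := by
    intro n
    simp only [u, Function.iterate_succ_apply']
    rfl
  refine ⟨t, fun n => f (u n).1 (u n).2, fun n => hf1 _ _, fun s => ?_⟩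
  have h5 : ∀ s, pat W W0 (fun n => f (u n).1 (u n).2) s = pl W W0 (u s.length).1 s := by
    intro s
    induction s with
    | nil => rfl
    | cons b s ih =>
      rw [List.length_cons, hu]
      simp only [pat, pl]
      rw [ih]
  rw [h5]
  exact (u s.length).2 s 0

end Pool.Agent.P9.Fib
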