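import Mathlib

/-!
# A dyadic tree of closed sets gives a non-empty set without isolated points
-/

namespace Pool.Agent.P9.Fib

open Set

/-- If all members of a dyadic tree of closed sets meet the closed set `C`, then `C` has a
non-empty subset without isolated points. -/
theorem exists_no_isolated {K : Type*} [TopologicalSpace K] [CompactSpace K] {C : Set K}
    (hC : IsClosed C) {F : List Bool → Set K} (hF : ∀ s, IsClosed (F s))
    (hnest : ∀ b s, F (b :: s) ⊆ F s) (hdisj : ∀ s, Disjoint (F (true :: s)) (F (false :: s)))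
    (hne : ∀ s, (C ∩ F s).Nonempty) :
    ∃ A ⊆ C, A.Nonempty ∧ ∀ x ∈ A, ∀ U : Set K, IsOpen U → U ∩ A ≠ {x} := by
  let S : Set (Set K) := {A | A ⊆ C ∧ IsClosed A ∧ ∀ s, (A ∩ F s).Nonempty}
  have hCS : C ∈ S := ⟨Subset.rfl, hC, hne⟩
  obtain ⟨A, hAC, hA⟩ := zorn_superset_nonempty S (by
    intro c hcS hc hcn
    refine ⟨⋂₀ c, ⟨?_, ?_, ?_⟩, fun s hs => sInter_subset_of_mem hs⟩
    · obtain ⟨B, hB⟩ := hcn
      exact (sInter_subset_of_mem hB).trans (hcS hB).1
    · exact isClosed_sInter fun B hB => (hcS hB).2.1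
    · intro s
      have h1 : (⋂ B : c, (B.1 ∩ F s)).Nonempty := by
        haveI : Nonempty c := hcn.to_subtype
        apply IsCompact.nonempty_iInter_of_directed_nonempty_isCompact_isClosed
        · intro B B'
          rcases hc.total B.2 B'.2 with h | h
          · exact ⟨B, Subset.rfl, inter_subset_inter_left _ h⟩
          · exact ⟨B', inter_subset_inter_left _ h, Subset.rfl⟩
        · exact fun B => (hcS B.2).2.2 s
        · exact fun B => ((hcS B.2).2.1.inter (hF s)).isCompact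
        · exact fun B => (hcS B.2).2.1.inter (hF s)
      obtain ⟨x, hx⟩ := h1
      rw [mem_iInter] at hx
      obtain ⟨B, hB⟩ := hcn
      exact ⟨x, fun B' hB' => (hx ⟨B', hB'⟩).1, (hx ⟨B, hB⟩).2⟩) C hCS
  have hAS := hA.prop
  refine ⟨A, hAC, (hAS.2.2 []).mono inter_subset_left, fun x hx U hU hUA => ?_⟩
  have h1 : ¬ (A \ U) ∈ S := by
    intro h
    have h2 := hA.le_of_le h sdiff_subset
    have h3 : x ∈ U := by
      have : x ∈ U ∩ A := by rw [hUA]; rfl
      exact this.1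
    exact (h2 hx).2 h3
  have h2 : ∃ s, ¬ ((A \ U) ∩ F s).Nonempty := by
    by_contra h
    push Not at h
    exact h1 ⟨sdiff_subset.trans hAC, hAS.2.1.sdiff hU, h⟩
  obtain ⟨s, hs⟩ := h2
  have h3 : A ∩ F s ⊆ {x} := by
    intro y hy
    by_cases hyU : y ∈ U
    · rw [← hUA]
      exact ⟨hyU, hy.1⟩
    · exact absurd ⟨y, ⟨hy.1, hyU⟩, hy.2⟩ hs
  obtain ⟨y, hy⟩ := hAS.2.2 (true :: s)
  obtain ⟨y', hy'⟩ := hAS.2.2 (false :: s)
  have h4 : y = x := h3 ⟨hy.1, hnest _ _ hy.2⟩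
  have h5 : y' = x := h3 ⟨hy'.1, hnest _ _ hy'.2⟩
  rw [h4] at hy
  rw [h5] at hy'
  exact disjoint_left.1 (hdisj s) hy.2 hy'.2

end Pool.Agent.P9.Fib
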